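import Pool.Agent.H77.WeqB

namespace Pool.Agent.Results.MP_cb6225_lc.NotExpressible

open Pool.Agent.H77.Weq

theorem result (σ : Type) [Finite σ] [Nontrivial σ] [Primcodable σ] :
    ∃ L : Set (List σ), REPred (fun w => w ∈ L) ∧ ComputablePred (fun w => w ∈ L) ∧
      ∀ (f : Fm σ) (x : ℕ), S f x ≠ L := by
  obtain ⟨a, b, hab⟩ := exists_pair_ne σ
  exact ⟨{w | w = W a b w.length}, (L_comp a b).to_re, L_comp a b, not_expr hab⟩

end Pool.Agent.Results.MP_cb6225_lc.NotExpressible
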